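import Pool.Agent.W845.DH.Stm

/-!
Project DH, part HP: Hamilton cycle from two nearly complete pairs.
-/

set_option autoImplicit false
open scoped Classical

namespace Pool.Agent.W605.DH.HP

open Pool.Agent.W845.DH

lemma same (hSWM : S_SWM) (hHM : S_HM) {V : Type} [Fintype V] (D : V → V → Prop)
    (U W : Finset V) (P Q : V → Prop) (l b c : ℕ) (hB : Blk D U W P Q l b c)
    (Adm : Equiv.Perm V → Prop) (σ : Equiv.Perm V)
    (hU : ∀ u ∈ U, σ u ∈ W ∧ D u (σ u) ∧ (P u ∨ Q (σ u)))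
    (hmin : ∀ σ', Adm σ' → nc σ ≤ nc σ')
    (hA : ∀ x ∈ U, ∀ y ∈ U, x ≠ y → D x (σ y) → D y (σ x) → Q (σ y) → P y →
      Adm (σ * Equiv.swap x y)) :
    ∀ x ∈ U, ∀ y ∈ U, σ.SameCycle x y := by
  intro x0 hx0 y0 hy0
  by_contra hne
  obtain ⟨x, hx, y, hy, hxy, h1, h2, h3, h4⟩ := hHM V D U W P Q l b c σ hB hU
    ⟨x0, hx0, y0, hy0, hne⟩
  have hxne : x ≠ y := by
    rintro rfl
    exact hxy (Equiv.Perm.SameCycle.refl _ _)
  have h5 := (hSWM V σ x y hxy).2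
  have h6 := hmin _ (hA x hx y hy hxne h1 h2 h3 h4)
  omega

lemma sw_other {V : Type} (σ : Equiv.Perm V) {x y v : V} (h1 : v ≠ x) (h2 : v ≠ y) :
    (σ * Equiv.swap x y) v = σ v := by
  rw [Equiv.Perm.mul_apply, Equiv.swap_apply_of_ne_of_ne h1 h2]

lemma sw_left {V : Type} (σ : Equiv.Perm V) (x y : V) : (σ * Equiv.swap x y) x = σ y := by
  rw [Equiv.Perm.mul_apply, Equiv.swap_apply_left]

lemma sw_right {V : Type} (σ : Equiv.Perm V) (x y : V) : (σ * Equiv.swap x y) y = σ x := by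
  rw [Equiv.Perm.mul_apply, Equiv.swap_apply_right]

lemma pres {V : Type} (D : V → V → Prop) (U W : Finset V) (P Q : V → Prop) (σ : Equiv.Perm V)
    (hU : ∀ u ∈ U, σ u ∈ W ∧ D u (σ u) ∧ (P u ∨ Q (σ u))) {x y : V} (hx : x ∈ U) (hy : y ∈ U)
    (h1 : D x (σ y)) (h2 : D y (σ x)) (h3 : Q (σ y)) (h4 : P y) :
    ∀ u ∈ U, (σ * Equiv.swap x y) u ∈ W ∧ D u ((σ * Equiv.swap x y) u) ∧
      (P u ∨ Q ((σ * Equiv.swap x y) u)) := by
  intro u hu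
  by_cases hux : u = x
  · rw [hux, sw_left]
    exact ⟨(hU y hy).1, h1, Or.inr h3⟩
  · by_cases huy : u = y
    · rw [huy, sw_right]
      exact ⟨(hU x hx).1, h2, Or.inl h4⟩
    · rw [sw_other σ hux huy]
      exact hU u hu

lemma presO {V : Type} (D : V → V → Prop) (U W : Finset V) (P Q : V → Prop) (σ : Equiv.Perm V)
    (hU : ∀ u ∈ U, σ u ∈ W ∧ D u (σ u) ∧ (P u ∨ Q (σ u))) {x y : V} (hx : x ∉ U) (hy : y ∉ U) :
    ∀ u ∈ U, (σ * Equiv.swap x y) u ∈ W ∧ D u ((σ * Equiv.swap x y) u) ∧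
      (P u ∨ Q ((σ * Equiv.swap x y) u)) := by
  intro u hu
  have h1 : u ≠ x := fun h => hx (h ▸ hu)
  have h2 : u ≠ y := fun h => hy (h ▸ hu)
  rw [sw_other σ h1 h2]
  exact hU u hu

lemma surj {V : Type} (σ : Equiv.Perm V) (U W : Finset V) (hc : U.card = W.card)
    (h : ∀ u ∈ U, σ u ∈ W) : ∀ w ∈ W, ∃ u ∈ U, σ u = w := by
  have h1 : U.image σ = W := by
    apply Finset.eq_of_subset_of_card_le
    · intro w hw
      rw [Finset.mem_image] at hw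
      obtain ⟨u, hu, rfl⟩ := hw
      exact h u hu
    · rw [Finset.card_image_of_injective U σ.injective, hc]
  intro w hw
  rw [← h1, Finset.mem_image] at hw
  exact hw

theorem hp : S_SWM → S_HG → S_HM → S_HP := by
  intro hSWM hHG hHM V _ D G F U1 W1 U2 W2 P1 Q1 P2 Q2 l b c l' b' c' hDG hB1 hB2 hVD hFG hU hW hF
    hcov1 hcov2 hjoin
  obtain ⟨f1, hf1, hf1'⟩ := hHG V D U1 W1 P1 Q1 l b c hB1
  obtain ⟨f2, hf2, hf2'⟩ := hHG V D U2 W2 P2 Q2 l' b' c' hB2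
  have hU12 : ∀ v, v ∈ U1 → v ∉ U2 := fun v h1 h2 => (Finset.disjoint_left.1 hU h1) h2
  have hW12 : ∀ v, v ∈ W1 → v ∉ W2 := fun v h1 h2 => (Finset.disjoint_left.1 hW h1) h2
  have hF1 : ∀ e ∈ F, ∀ e' ∈ F, e.1 = e'.1 → e = e' := by
    intro e he e' he' h
    by_contra hne
    exact (hVD.2 e he e' he' hne).1 h
  have hF2 : ∀ e ∈ F, ∀ e' ∈ F, e.2 = e'.2 → e = e' := by
    intro e he e' he' h
    by_contra hne
    exact (hVD.2 e he e' he' hne).2.2.2 h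
  -- the map
  have hg : ∀ v, ∃ w, (v ∈ U1 → w = f1 v) ∧ (v ∈ U2 → w = f2 v) ∧ (∀ e ∈ F, e.1 = v → w = e.2) := by
    intro v
    by_cases h1 : v ∈ U1
    · exact ⟨f1 v, fun _ => rfl, fun h2 => absurd h2 (hU12 v h1), fun e he hev =>
        absurd h1 (hev ▸ (hF e he).1)⟩
    · by_cases h2 : v ∈ U2
      · exact ⟨f2 v, fun h => absurd h h1, fun _ => rfl, fun e he hev =>
          absurd h2 (hev ▸ (hF e he).2.1)⟩
      · obtain ⟨e, he, hev⟩ : ∃ e ∈ F, e.1 = v := by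
          rcases hcov1 v with h | h | h
          · exact absurd h h1
          · exact absurd h h2
          · exact h
        refine ⟨e.2, fun h => absurd h h1, fun h => absurd h h2, fun e' he' hev' => ?_⟩
        rw [hF1 e he e' he' (hev.trans hev'.symm)]
  choose g hg1 hg2 hg3 using hg
  have gW1 : ∀ v ∈ U1, g v ∈ W1 := fun v hv => by rw [hg1 v hv]; exact (hf1' v hv).1
  have gW2 : ∀ v ∈ U2, g v ∈ W2 := fun v hv => by rw [hg2 v hv]; exact (hf2' v hv).1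
  have gF : ∀ e ∈ F, g e.1 ∉ W1 ∧ g e.1 ∉ W2 := fun e he => by
    rw [hg3 e.1 e he rfl]; exact ⟨(hF e he).2.2.1, (hF e he).2.2.2⟩
  have ginj : Function.Injective g := by
    intro v v' hvv
    rcases hcov1 v with h | h | ⟨e, he, rfl⟩ <;> rcases hcov1 v' with h' | h' | ⟨e', he', rfl⟩
    · rw [hg1 v h, hg1 v' h'] at hvv
      exact hf1 h h' hvv
    · exact absurd (gW2 v' h') (hvv ▸ hW12 _ (gW1 v h))
    · exact absurd (hvv ▸ gW1 v h) (gF e' he').1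
    · exact absurd (gW2 v h) (hvv.symm ▸ hW12 _ (gW1 v' h'))
    · rw [hg2 v h, hg2 v' h'] at hvv
      exact hf2 h h' hvv
    · exact absurd (hvv ▸ gW2 v h) (gF e' he').2
    · exact absurd (hvv.symm ▸ gW1 v' h') (gF e he).1
    · exact absurd (hvv.symm ▸ gW2 v' h') (gF e he).2
    · rw [hg3 e.1 e he rfl, hg3 e'.1 e' he' rfl] at hvv
      rw [hF2 e he e' he' hvv]
  obtain ⟨Adm, hAdm⟩ : ∃ Adm : Equiv.Perm V → Prop, ∀ σ, Adm σ ↔ ((∀ e ∈ F, σ e.1 = e.2) ∧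
      (∀ u ∈ U1, σ u ∈ W1 ∧ D u (σ u) ∧ (P1 u ∨ Q1 (σ u))) ∧
      (∀ u ∈ U2, σ u ∈ W2 ∧ D u (σ u) ∧ (P2 u ∨ Q2 (σ u)))) := ⟨_, fun _ => Iff.rfl⟩
  have hex : ∃ k, ∃ σ, Adm σ ∧ nc σ = k := by
    refine ⟨_, Equiv.ofBijective g (Finite.injective_iff_bijective.1 ginj), (hAdm _).2 ?_, rfl⟩
    simp only [Equiv.ofBijective_apply]
    refine ⟨fun e he => hg3 e.1 e he rfl, fun u hu => ?_, fun u hu => ?_⟩
    · rw [hg1 u hu]; exact hf1' u hu
    · rw [hg2 u hu]; exact hf2' u hu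
  obtain ⟨σ, hσ, hk⟩ := Nat.find_spec hex
  have hmin : ∀ σ', Adm σ' → nc σ ≤ nc σ' := by
    intro σ' h'
    rw [hk]
    exact Nat.find_min' hex ⟨σ', h', rfl⟩
  obtain ⟨s1, s2, s3⟩ := (hAdm σ).1 hσ
  have hFx : ∀ x ∈ U1, ∀ e ∈ F, e.1 ≠ x := fun x hx e he h => (hF e he).1 (h ▸ hx)
  have hFy : ∀ x ∈ U2, ∀ e ∈ F, e.1 ≠ x := fun x hx e he h => (hF e he).2.1 (h ▸ hx)
  have hS1 : ∀ x ∈ U1, ∀ y ∈ U1, σ.SameCycle x y := by
    refine same hSWM hHM D U1 W1 P1 Q1 l b c hB1 Adm σ s2 hmin ?_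
    intro x hx y hy _ h1 h2 h3 h4
    refine (hAdm _).2 ⟨fun e he => ?_, pres D U1 W1 P1 Q1 σ s2 hx hy h1 h2 h3 h4,
      presO D U2 W2 P2 Q2 σ s3 (hU12 x hx) (hU12 y hy)⟩
    rw [sw_other σ (hFx x hx e he) (hFx y hy e he)]
    exact s1 e he
  have hS2 : ∀ x ∈ U2, ∀ y ∈ U2, σ.SameCycle x y := by
    refine same hSWM hHM D U2 W2 P2 Q2 l' b' c' hB2 Adm σ s3 hmin ?_
    intro x hx y hy _ h1 h2 h3 h4
    refine (hAdm _).2 ⟨fun e he => ?_,
      presO D U1 W1 P1 Q1 σ s2 (fun h => hU12 x h hx) (fun h => hU12 y h hy),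
      pres D U2 W2 P2 Q2 σ s3 hx hy h1 h2 h3 h4⟩
    rw [sw_other σ (hFy x hx e he) (hFy y hy e he)]
    exact s1 e he
  have hsc : ∀ v, σ.SameCycle v (σ v) := fun v =>
    Equiv.Perm.sameCycle_apply_right.2 (Equiv.Perm.SameCycle.refl _ _)
  have hrep : ∀ v, ∃ u, (u ∈ U1 ∨ u ∈ U2) ∧ σ.SameCycle v u := by
    intro v
    rcases hcov1 v with h | h | ⟨e, he, rfl⟩
    · exact ⟨v, Or.inl h, Equiv.Perm.SameCycle.refl _ _⟩
    · exact ⟨v, Or.inr h, Equiv.Perm.SameCycle.refl _ _⟩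
    · have h1 := hsc e.1
      rw [s1 e he] at h1
      rcases hcov1 e.2 with h | h | ⟨e', he', hee⟩
      · exact ⟨e.2, Or.inl h, h1⟩
      · exact ⟨e.2, Or.inr h, h1⟩
      · exfalso
        by_cases hne : e = e'
        · rw [← hne] at hee
          exact hVD.1 e he hee
        · exact (hVD.2 e he e' he' hne).2.2.1 hee.symm
  obtain ⟨a, ha, d, hd, had⟩ : ∃ a ∈ U1, ∃ d ∈ U2, σ.SameCycle a d := by
    rcases hjoin with ⟨v, h1, h2⟩ | ⟨v, h1, h2⟩ | ⟨e, he, h1, h2⟩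
    · obtain ⟨u, hu, rfl⟩ := surj σ U2 W2 hB2.1 (fun u hu => (s3 u hu).1) v h2
      exact ⟨_, h1, u, hu, (hsc u).symm⟩
    · obtain ⟨u, hu, rfl⟩ := surj σ U1 W1 hB1.1 (fun u hu => (s2 u hu).1) v h2
      exact ⟨u, hu, _, h1, hsc u⟩
    · obtain ⟨u, hu, hue⟩ := surj σ U1 W1 hB1.1 (fun u hu => (s2 u hu).1) e.1 h1
      refine ⟨u, hu, e.2, h2, ?_⟩
      have h3 := hsc u
      rw [hue] at h3
      have h4 := hsc e.1
      rw [s1 e he] at h4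
      exact h3.trans h4
  have hall : ∀ v, σ.SameCycle v a := by
    intro v
    obtain ⟨u, hu | hu, huv⟩ := hrep v
    · exact huv.trans (hS1 u hu a ha)
    · exact huv.trans ((hS2 u hu d hd).trans had.symm)
  refine ⟨σ, fun v => ?_, fun u v => (hall u).trans (hall v).symm⟩
  rcases hcov1 v with h | h | ⟨e, he, rfl⟩
  · exact hDG _ _ (s2 v h).2.1
  · exact hDG _ _ (s3 v h).2.1
  · rw [s1 e he]; exact hFG e he

end Pool.Agent.W605.DH.HP
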